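import Pool.Agent.Helper30_F5K.StmtsR
import Pool.Agent.Helper48_F5H.K_LRG
import Pool.Agent.Helper27_F5H.K_WSC
import Pool.Agent.Helper15_F5H.PHB

/-!
MP_f5cbfa_nt, squad F5H, row R_WTS: large vectors.
-/

set_option autoImplicit false

open MeasureTheory Complex ComplexConjugate

namespace Pool.Agent.F5H.K2.H27R

open Pool.Agent.Helper68_F5 Pool.Agent.F5H.W36 Pool.Agent.F5H.BC Pool.Agent.BTL Pool.Agent.F5S
  Pool.Agent.F5H Pool.Agent.F5H.K2.H30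

theorem wts : WTSStmt := by
  classical
  obtain ⟨K, hK1, hK⟩ := H48.lrg H27.wsc
  refine ⟨600, by norm_num, max K (10 ^ 6), ?_⟩
  intro T Q A V k0 del u z m₁ R₁ hQ0 hP hA 𝓗 𝓥 h𝓗 h𝓥
  obtain ⟨hQ, hT, hQT, hlog, v2, v21, v10, v0, vsq, v7, k1, kV, hm, hR, hR1, dk, d1, u0, u1, u2, uk,
    uV, uT, zdel, z1, zk, zu, zr, r1, rV⟩ := hP
  have hQ6 : (10 : ℝ) ^ 6 ≤ Q := (le_max_right _ _).trans hQ0
  have hQK : K ≤ Q := (le_max_left _ _).trans hQ0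
  have hQ1 : 1 ≤ Q := by linarith
  have hQ0' : 0 < Q := by linarith
  have q2 : 1 ≤ Q ^ 2 := one_le_pow₀ hQ1
  have q8 : 1 ≤ Q ^ 8 := one_le_pow₀ hQ1
  have q9 : 1 ≤ Q ^ 9 := one_le_pow₀ hQ1
  have hV2 : 1 ≤ V 2 := (one_le_pow₀ hQ1).trans v2
  have hV1 : 1 ≤ V 1 := hV2.trans v21
  have hV0 : 1 ≤ V 0 := hV1.trans v10
  have hQV2 : Q ^ 8 ≤ V 2 := (pow_le_pow_right₀ hQ1 (by norm_num)).trans v2
  have hsq1 : 1 ≤ √(V 0 * V 1) := by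
    rw [Real.one_le_sqrt]
    exact one_le_mul_of_one_le_of_one_le hV0 hV1
  have hR1k : R₁ ≤ k0 := by rw [hR]; exact min_le_left _ _
  have hR1s : R₁ ≤ √(V 0 * V 1) := by rw [hR]; exact min_le_right _ _
  have hm0 : 1 ≤ max 1 (V 0 / k0) := le_max_left _ _
  have hm1 : 1 ≤ max 1 (V 1 / k0) := le_max_left _ _
  have q3 : 1 ≤ Q ^ 3 := one_le_pow₀ hQ1
  have hVV : V 0 * V 1 = √(V 0 * V 1) ^ 2 := (Real.sq_sqrt (by positivity)).symm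
  have hrr : 0 < Rx T / T := by linarith
  have hk0 : 0 < k0 := by linarith
  have hu3 : 0 ≤ u ^ 3 := by positivity
  have huinv : Q ^ 40 ≤ Q ^ 40 / u := by
    rw [le_div_iff₀ u0]
    exact mul_le_of_le_one_right (by positivity) u1
  set E : ℝ := 10 ^ 6 * (Q ^ 9) ^ 8 * ((Q ^ 2 * V 0 / (Q ^ 2 * V 1)) ^ 2 * u ^ 2) with hE
  have hE0 : 0 ≤ E := by positivity
  have key := hK (gQ Q A) (sep_gQ hQ1 hA) (Q ^ 8) ((Q * T) ^ 2) (Q ^ 2 * (Rx T / T)) (Q * R₁)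
    (Q ^ 3 * max 1 (V 0 / k0)) (Q ^ 3 * max 1 (V 1 / k0)) (Q ^ 2 * V 0) (Q ^ 2 * V 1)
    (Q ^ 2 * V 2) (u ^ 3) (Q ^ 40 / u) E q8 (by positivity) v7
    (one_le_mul_of_one_le_of_one_le q2 hV2)
    (mul_le_mul_of_nonneg_left v21 (by positivity)) (mul_le_mul_of_nonneg_left v10 (by positivity))
    ?_ ?_ ?_ ?_ ?_ ?_ hu3 ?_ hE0 ?_ 𝓗 𝓥 ?_ h𝓥
  rotate_left
  · -- P ≤ V₁
    exact (hQV2.trans (v21.trans v10)).trans (le_mul_of_one_le_left (by linarith) q2)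
  · -- R₁ ≤ V₁
    have h1 : Q ≤ Q ^ 2 := le_self_pow₀ hQ1 (by norm_num)
    exact mul_le_mul h1 (hR1k.trans kV) (by linarith) (by positivity)
  · exact one_le_mul_of_one_le_of_one_le q2 r1
  · -- 8 P r ≤ V₂
    have h1 : 8 * Q ^ 8 ≤ Q ^ 100 := by
      have h2 : Q ^ 9 ≤ Q ^ 100 := pow_le_pow_right₀ hQ1 (by norm_num)
      have h3 : 8 * Q ^ 8 ≤ Q ^ 9 := by
        rw [pow_succ Q 8, mul_comm]
        exact mul_le_mul_of_nonneg_left (by linarith) (by positivity)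
      exact h3.trans h2
    calc 8 * Q ^ 8 * (Q ^ 2 * (Rx T / T)) = Q ^ 2 * (8 * Q ^ 8 * (Rx T / T)) := by ring
      _ ≤ Q ^ 2 * (Q ^ 100 * (Rx T / T)) := by
          apply mul_le_mul_of_nonneg_left _ (by positivity)
          exact mul_le_mul_of_nonneg_right h1 hrr.le
      _ ≤ Q ^ 2 * V 1 := mul_le_mul_of_nonneg_left rV (by positivity)
  · exact one_le_mul_of_one_le_of_one_le q3 hm0
  · exact one_le_mul_of_one_le_of_one_le q3 hm1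
  · -- 300000 P^3 ≤ R₀
    refine le_trans ?_ huinv
    have h2 : Q ^ 25 ≤ Q ^ 40 := pow_le_pow_right₀ hQ1 (by norm_num)
    have h3 : 300000 * (Q ^ 8) ^ 3 ≤ Q ^ 25 := by
      have h4 : (Q ^ 8) ^ 3 = Q ^ 24 := by ring
      rw [h4, pow_succ Q 24, mul_comm]
      exact mul_le_mul_of_nonneg_left (by linarith) (by positivity)
    exact h3.trans h2
  · -- PH
    intro R hR0 hRle
    have hRk : R ≤ Q ^ 9 * k0 := by
      have h1 : Q * R₁ ≤ Q * k0 := mul_le_mul_of_nonneg_left hR1k hQ0'.le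
      have h2 : Q ^ 8 ≤ Q ^ 8 * k0 := le_mul_of_one_le_right (by positivity) k1
      have h3 : Q + Q ^ 8 ≤ Q ^ 9 := by
        have h4 : Q ≤ Q ^ 8 := le_self_pow₀ hQ1 (by norm_num)
        have h5 : 2 * Q ^ 8 ≤ Q ^ 9 := by
          rw [pow_succ Q 8, mul_comm]
          exact mul_le_mul_of_nonneg_left (by linarith) (by positivity)
        linarith
      calc R ≤ Q * k0 + Q ^ 8 * k0 := by linarith
        _ = (Q + Q ^ 8) * k0 := by ring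
        _ ≤ Q ^ 9 * k0 := mul_le_mul_of_nonneg_right h3 hk0.le
    have hRs : R ≤ Q ^ 9 * √(V 0 * V 1) := by
      have h1 : Q * R₁ ≤ Q * √(V 0 * V 1) := mul_le_mul_of_nonneg_left hR1s hQ0'.le
      have h2 : Q ^ 8 ≤ Q ^ 8 * √(V 0 * V 1) := le_mul_of_one_le_right (by positivity) hsq1
      have h3 : Q + Q ^ 8 ≤ Q ^ 9 := by
        have h4 : Q ≤ Q ^ 8 := le_self_pow₀ hQ1 (by norm_num)
        have h5 : 2 * Q ^ 8 ≤ Q ^ 9 := by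
          rw [pow_succ Q 8, mul_comm]
          exact mul_le_mul_of_nonneg_left (by linarith) (by positivity)
        linarith
      calc R ≤ Q * √(V 0 * V 1) + Q ^ 8 * √(V 0 * V 1) := by linarith
        _ = (Q + Q ^ 8) * √(V 0 * V 1) := by ring
        _ ≤ Q ^ 9 * √(V 0 * V 1) := mul_le_mul_of_nonneg_right h3 (by positivity)
    have hRpos : 0 < R := lt_of_lt_of_le (by positivity) hR0
    have huR : 1 ≤ u * R := by
      have h1 : Q ^ 40 / u * u ≤ R * u := mul_le_mul_of_nonneg_right hR0 u0.le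
      rw [div_mul_cancel₀ _ u0.ne'] at h1
      have h2 : 1 ≤ Q ^ 40 := one_le_pow₀ hQ1
      linarith
    have hbig : ∀ x : ℝ, 1 ≤ x → Q ^ 3 * max 1 (x / k0) ≤ Q ^ 9 * max 1 (Q ^ 2 * x / k0) := by
      intro x hx
      have hx0 : 0 ≤ x := by linarith
      have h1 : x / k0 ≤ Q ^ 2 * x / k0 := by
        apply div_le_div_of_nonneg_right _ hk0.le
        exact le_mul_of_one_le_left hx0 q2
      exact mul_le_mul (pow_le_pow_right₀ hQ1 (by norm_num)) (max_le_max le_rfl h1)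
        (by positivity) (by positivity)
    refine H15.phb (Q ^ 9) (Q ^ 2 * V 0) (Q ^ 2 * V 1) k0 R u _ _ q9
      (one_le_mul_of_one_le_of_one_le q2 hV1)
      (mul_le_mul_of_nonneg_left v10 (by positivity)) ?_ k1 u0 u1 ?_ uk huR hRk ?_
      (one_le_mul_of_one_le_of_one_le q3 hm0) (one_le_mul_of_one_le_of_one_le q3 hm1) (hbig _ hV0) (hbig _ hV1)
    · have h1 : Q ^ 2 * V 0 ≤ Q ^ 2 * V 1 ^ 2 := mul_le_mul_of_nonneg_left vsq (by positivity)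
      have h2 : (Q ^ 2 * V 1) ^ 2 = Q ^ 2 * (Q ^ 2 * V 1 ^ 2) := by ring
      rw [h2]
      exact h1.trans (le_mul_of_one_le_left (by positivity) q2)
    · have h2 : u ^ 4 * (Q ^ 2 * V 1) = Q ^ 2 * (u ^ 4 * V 1) := by ring
      rw [h2]
      exact one_le_mul_of_one_le_of_one_le q2 uV
    · have h1 : R ^ 2 ≤ (Q ^ 9 * √(V 0 * V 1)) ^ 2 := pow_le_pow_left₀ hRpos.le hRs 2
      have h2 : (Q ^ 9 * √(V 0 * V 1)) ^ 2 = (Q ^ 9) ^ 2 * (V 0 * V 1) := by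
        rw [mul_pow, ← hVV]
      have h3 : (Q ^ 9) ^ 2 * (Q ^ 2 * V 0 * (Q ^ 2 * V 1)) =
          Q ^ 4 * ((Q ^ 9) ^ 2 * (V 0 * V 1)) := by ring
      rw [h3]
      have h4 : 1 ≤ Q ^ 4 := one_le_pow₀ hQ1
      have h5 : 0 ≤ (Q ^ 9) ^ 2 * (V 0 * V 1) := by positivity
      rw [h2] at h1
      exact h1.trans (le_mul_of_one_le_left h5 h4)
  · intro h hh
    obtain ⟨a1, a2, a3, a4, a5⟩ := h𝓗 h hh
    exact ⟨a1, a2, a3, a4, a5⟩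
  -- comparison
  have hsum : ∑ h ∈ 𝓗, ∑ t ∈ 𝓥, volume (HitW (Q ^ 8) ((Q * T) ^ 2) (Q ^ 2 * (Rx T / T)) (Q * R₁)
      (Q ^ 3 * max 1 (V 0 / k0)) (Q ^ 3 * max 1 (V 1 / k0)) (u ^ 3 * (Q ^ 2 * V 0) ^ 3)
      (gQ Q A h.1) (gQ Q A h.2.1) (gQ Q A h.2.2) (gQ Q A t.1) (gQ Q A t.2.1) (gQ Q A t.2.2)) =
    ∑ p ∈ 𝓥 ×ˢ 𝓗, volume (HitW (Q ^ 8) ((Q * T) ^ 2) (Q ^ 2 * (Rx T / T)) (Q * R₁)
      (Q ^ 3 * max 1 (V 0 / k0)) (Q ^ 3 * max 1 (V 1 / k0)) (u ^ 3 * (Q ^ 2 * V 0) ^ 3)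
      (gQ Q A p.2.1) (gQ Q A p.2.2.1) (gQ Q A p.2.2.2) (gQ Q A p.1.1) (gQ Q A p.1.2.1)
      (gQ Q A p.1.2.2)) := by
    rw [Finset.sum_comm, Finset.sum_product]
  rw [hsum]
  refine key.trans (ENNReal.ofReal_le_ofReal ?_)
  have hlog0 : 0 ≤ Real.log (Q ^ 2 * V 0) := Real.log_nonneg
    (one_le_mul_of_one_le_of_one_le q2 hV0)
  have b1 : (1 + Real.log (Q ^ 2 * V 0)) ^ 7 ≤ (Q ^ 2) ^ 7 := pow_le_pow_left₀ (by linarith) hlog 7
  have b2 : min (Q ^ 2 * (Rx T / T)) (Q ^ 2 * V 2) ≤ Q ^ 2 * (Rx T / T) := min_le_left _ _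
  have b3 : E = 10 ^ 6 * Q ^ 72 * ((V 0 / V 1) ^ 2 * u ^ 2) := by
    rw [hE, mul_div_mul_left _ _ (by positivity : Q ^ 2 ≠ 0)]
    ring
  have hmin0 : 0 ≤ min (Q ^ 2 * (Rx T / T)) (Q ^ 2 * V 2) := by positivity
  have hX : 0 ≤ (V 0 / V 1) ^ 2 * u ^ 2 := by positivity
  calc K * (Q ^ 8) ^ 60 * (1 + Real.log (Q ^ 2 * V 0)) ^ 7 *
        ((Q ^ 2 * V 0) ^ 2 * (Q ^ 2 * V 1) ^ 2 * (Q ^ 2 * V 2 *
          min (Q ^ 2 * (Rx T / T)) (Q ^ 2 * V 2))) * E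
      ≤ Q * (Q ^ 8) ^ 60 * (Q ^ 2) ^ 7 *
        ((Q ^ 2 * V 0) ^ 2 * (Q ^ 2 * V 1) ^ 2 * (Q ^ 2 * V 2 *
          (Q ^ 2 * (Rx T / T)))) * (Q * Q ^ 72 * ((V 0 / V 1) ^ 2 * u ^ 2)) := by
        rw [b3]
        have c1 : K * (Q ^ 8) ^ 60 * (1 + Real.log (Q ^ 2 * V 0)) ^ 7 ≤
            Q * (Q ^ 8) ^ 60 * (Q ^ 2) ^ 7 := by
          apply mul_le_mul _ b1 (by positivity) (by positivity)
          exact mul_le_mul_of_nonneg_right hQK (by positivity)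
        have c2 : (Q ^ 2 * V 0) ^ 2 * (Q ^ 2 * V 1) ^ 2 * (Q ^ 2 * V 2 *
            min (Q ^ 2 * (Rx T / T)) (Q ^ 2 * V 2)) ≤
            (Q ^ 2 * V 0) ^ 2 * (Q ^ 2 * V 1) ^ 2 * (Q ^ 2 * V 2 * (Q ^ 2 * (Rx T / T))) := by
          apply mul_le_mul_of_nonneg_left _ (by positivity)
          exact mul_le_mul_of_nonneg_left b2 (by positivity)
        have c3 : 10 ^ 6 * Q ^ 72 * ((V 0 / V 1) ^ 2 * u ^ 2) ≤
            Q * Q ^ 72 * ((V 0 / V 1) ^ 2 * u ^ 2) := by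
          apply mul_le_mul_of_nonneg_right _ hX
          exact mul_le_mul_of_nonneg_right hQ6 (by positivity)
        refine mul_le_mul (mul_le_mul c1 c2 ?_ ?_) c3 ?_ ?_
        · positivity
        · positivity
        · positivity
        · positivity
    _ = Q ^ 580 * (V 0 ^ 2 * V 1 ^ 2 * (V 2 * (Rx T / T))) * ((V 0 / V 1) ^ 2 * u ^ 2) := by ring
    _ ≤ Q ^ 600 * (V 0 ^ 2 * V 1 ^ 2 * (V 2 * (Rx T / T))) * ((V 0 / V 1) ^ 2 * u ^ 2) := by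
        apply mul_le_mul_of_nonneg_right _ hX
        apply mul_le_mul_of_nonneg_right (pow_le_pow_right₀ hQ1 (by norm_num))
        positivity

end Pool.Agent.F5H.K2.H27R
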